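import Pool.Agent.W451.UGR.CoreThm
import Pool.Agent.W451.UGR.Padic

/-!
# Uniqueness of integral forms of fusion categories

Let `O` be a valuation ring of rank one with divisible value group, for instance the ring of
integers of an algebraic closure of `ℚ_[p]`, and let `K` be its field of fractions. We prove that a
semisimple rigid tensor category over `O` is determined, up to tensor equivalence over `O`, by its
base change to `K`. In particular a fusion category over the algebraic closure of `ℚ` has at most
one good reduction modulo `p`; but more is true, since the lift over the ring of integers is unique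
as well.

Definitions used (files `Defs`, `BC`, `Padic` of the folder `W451/UGR`):

* `TensorCat R` : an `R`-linear monoidal category with `R`-bilinear tensor product;
* `TensorCat.IsSemisimpleRigid` : additive, rigid, with finitely many objects `X i` among which
  the unit, with `Hom (X i, X j) = 0` for `i ≠ j` and `Hom (X i, X i) = R`, such that each object
  is a finite direct sum of the `X i`;
* `TensorCat.TensorEquiv` : existence of an `R`-linear monoidal equivalence;
* `TensorCat.baseChange` : same objects, `Hom` spaces `S ⊗[R] Hom (X, Y)`;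
* `QBarP p`, `ZBarP p`, `FBarP p` : an algebraic closure of `ℚ_[p]`, its ring of integers and the
  residue field of the latter.
-/

set_option autoImplicit false

open CategoryTheory

namespace Pool.Agent.Results.MP_21cf63_al.LiftsUnique

open Pool.Agent.W451.UGR

universe w w₁ v u v₁ u₁ v₂ u₂

/-- `O` is the unit ball of the absolute value `v` on the field `K`, and `v` is nontrivial with
divisible value group: `O` is (isomorphic to) a valuation ring of rank one with divisible value
group, and `K` is its field of fractions. Neither completeness, nor algebraic closedness, nor any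
condition on the characteristics of `K` and of the residue field is imposed. -/
structure IsUnitBall (O : Type w) (K : Type w₁) [CommRing O] [Field K] [Algebra O K]
    (v : AbsoluteValue K ℝ) : Prop where
  injective : Function.Injective (algebraMap O K)
  mem_iff : ∀ x : K, v x ≤ 1 ↔ ∃ r : O, algebraMap O K r = x
  divisible : ∀ x : K, x ≠ 0 → ∀ n : ℕ, 0 < n → ∃ y : K, v y ^ n = v x
  nontrivial : ∃ x : K, x ≠ 0 ∧ v x ≠ 1

section

variable {O : Type w} {K : Type w₁} [CommRing O] [Field K] [Algebra O K] {v : AbsoluteValue K ℝ}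

lemma IsUnitBall.le_one (h : IsUnitBall O K v) (r : O) : v (algebraMap O K r) ≤ 1 :=
  (h.mem_iff _).2 ⟨r, rfl⟩

lemma IsUnitBall.isUnit_iff (h : IsUnitBall O K v) (r : O) :
    IsUnit r ↔ v (algebraMap O K r) = 1 := by
  constructor
  · rintro ⟨u, rfl⟩
    have h1 : v (algebraMap O K u) * v (algebraMap O K (u⁻¹ : Oˣ)) = 1 := by
      rw [← map_mul, ← map_mul, u.mul_inv, map_one, map_one]
    have h2 := h.le_one (u : O)
    have h3 := h.le_one ((u⁻¹ : Oˣ) : O)
    have h4 := v.nonneg (algebraMap O K u)
    nlinarith
  · intro h1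
    have h0 : algebraMap O K r ≠ 0 := by
      intro h0
      rw [h0, map_zero] at h1
      exact zero_ne_one h1
    obtain ⟨s, hs⟩ := (h.mem_iff (algebraMap O K r)⁻¹).1 (by rw [map_inv₀, h1, inv_one])
    refine IsUnit.of_mul_eq_one s ?_
    apply h.injective
    rw [map_mul, hs, mul_inv_cancel₀ h0, map_one]

/-- The absolute value of a unit ball which is a ring is non-archimedean. -/
lemma IsUnitBall.add_lt (h : IsUnitBall O K v) {x y : K} (hx : v x < 1) (hy : v y < 1) :
    v (x + y) < 1 := by
  wlog hxy : v x ≤ v y generalizing x y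
  · rw [add_comm]
    exact this hy hx (le_of_lt (not_le.mp hxy))
  by_cases hy0 : y = 0
  · rw [hy0, add_zero]
    exact hx
  · have h1 : 0 < v y := (v.pos_iff).2 hy0
    obtain ⟨r, hr⟩ := (h.mem_iff (x / y)).1 (by rw [map_div₀]; exact (div_le_one h1).2 hxy)
    have h2 : v (x / y + 1) ≤ 1 := (h.mem_iff _).2 ⟨r + 1, by rw [map_add, map_one, hr]⟩
    have h3 : x + y = (x / y + 1) * y := by
      field_simp
    rw [h3, map_mul]
    calc v (x / y + 1) * v y ≤ 1 * v y := mul_le_mul_of_nonneg_right h2 h1.le
      _ < 1 := by rw [one_mul]; exact hy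

lemma IsUnitBall.isLocalRing (h : IsUnitBall O K v) : IsLocalRing O := by
  have hnt : Nontrivial O := by
    refine ⟨⟨0, 1, fun h01 => ?_⟩⟩
    have := congrArg (algebraMap O K) h01
    rw [map_zero, map_one] at this
    exact zero_ne_one this
  refine IsLocalRing.of_isUnit_or_isUnit_one_sub_self fun a => ?_
  by_cases ha : IsUnit a
  · exact Or.inl ha
  · right
    by_contra hb
    rw [h.isUnit_iff] at ha hb
    have h1 := lt_of_le_of_ne (h.le_one a) ha
    have h2 := lt_of_le_of_ne (h.le_one (1 - a)) hb
    have h3 := h.add_lt h1 h2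
    rw [← map_add, add_sub_cancel, map_one, map_one] at h3
    exact lt_irrefl _ h3

/-- Two semisimple rigid tensor categories over a valuation ring of rank one with divisible value
group whose base changes to the field of fractions are tensor equivalent are tensor equivalent. -/
theorem lift_unique (h : IsUnitBall O K v)
    {M₁ : TensorCat.{w, v₁, u₁} O} {M₂ : TensorCat.{w, v₂, u₂} O}
    (h₁ : M₁.IsSemisimpleRigid) (h₂ : M₂.IsSemisimpleRigid)
    (e : (M₁.baseChange K).TensorEquiv (M₂.baseChange K)) : M₁.TensorEquiv M₂ := by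
  haveI := h.isLocalRing
  haveI : IsDomain O := h.injective.isDomain (algebraMap O K)
  exact tensorEquiv_of_baseChange (k := IsLocalRing.ResidueField O) v h.injective
    IsLocalRing.residue_surjective
    (fun r => by
      rw [IsLocalRing.ResidueField.algebraMap_eq, IsLocalRing.residue_eq_zero_iff,
        IsLocalRing.mem_maximalIdeal, mem_nonunits_iff])
    h.mem_iff h.isUnit_iff h.divisible h.nontrivial h₁ h₂ e (e.symm.trans e)

end

/-- `D` is a good reduction modulo `p` of the `ℚ̄`-linear tensor category `C`, with respect to the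
embedding `ι` of the algebraic closure of `ℚ` into that of `ℚ_[p]`, with lift `M`: the categories
`D` over `FBarP p` and `M` over `ZBarP p` are semisimple rigid, `M ⊗ FBarP p ≃ D` and
`M ⊗ QBarP p ≃ C ⊗ QBarP p`. -/
def IsGoodReductionWithLift (p : ℕ) [Fact p.Prime] (ι : AlgebraicClosure ℚ →+* QBarP p)
    (C : TensorCat.{0, v, u} (AlgebraicClosure ℚ)) (D : TensorCat.{0, v, u} (FBarP p))
    (M : TensorCat.{0, v, u} (ZBarP p)) : Prop :=
  letI : Algebra (AlgebraicClosure ℚ) (QBarP p) := ι.toAlgebra
  D.IsSemisimpleRigid ∧ M.IsSemisimpleRigid ∧ (M.baseChange (FBarP p)).TensorEquiv D ∧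
    (M.baseChange (QBarP p)).TensorEquiv (C.baseChange (QBarP p))

lemma isUnitBall_padic (p : ℕ) [Fact p.Prime] : IsUnitBall (ZBarP p) (QBarP p) (absP p) where
  injective := FaithfulSMul.algebraMap_injective (ZBarP p) (QBarP p)
  mem_iff := absP_le_one_iff' p
  divisible x _ n hn := absP_divisible p x n hn
  nontrivial := absP_nontrivial p

/-- (1) Let `O` be a valuation ring of rank one with divisible value group and `K` its field of
fractions. A semisimple rigid tensor category over `O` is determined, up to tensor equivalence over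
`O`, by its base change to `K`.
(2) For every prime `p` this applies to the ring of integers of the algebraic closure of `ℚ_[p]`:
semisimple rigid tensor categories over `ZBarP p` which become tensor equivalent over `QBarP p` are
tensor equivalent, and so are their reductions.
(3) For every prime `p`, if a tensor category `C` over the algebraic closure of `ℚ` has good
reductions `D₁`, `D₂` modulo `p` with lifts `M₁`, `M₂`, then `M₁ ≃ M₂` and `D₁ ≃ D₂` as tensor
categories over `ZBarP p` and `FBarP p`. -/
theorem result :
    (∀ (O : Type w) (K : Type w₁) [CommRing O] [Field K] [Algebra O K] (v : AbsoluteValue K ℝ),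
      IsUnitBall O K v → ∀ (M₁ : TensorCat.{w, v₁, u₁} O) (M₂ : TensorCat.{w, v₂, u₂} O),
        M₁.IsSemisimpleRigid → M₂.IsSemisimpleRigid →
        (M₁.baseChange K).TensorEquiv (M₂.baseChange K) → M₁.TensorEquiv M₂) ∧
    (∀ (p : ℕ) [Fact p.Prime], IsUnitBall (ZBarP p) (QBarP p) (absP p) ∧
      ∀ (M₁ : TensorCat.{0, v₁, u₁} (ZBarP p)) (M₂ : TensorCat.{0, v₂, u₂} (ZBarP p)),
        M₁.IsSemisimpleRigid → M₂.IsSemisimpleRigid →
        (M₁.baseChange (QBarP p)).TensorEquiv (M₂.baseChange (QBarP p)) →
        M₁.TensorEquiv M₂ ∧ (M₁.baseChange (FBarP p)).TensorEquiv (M₂.baseChange (FBarP p))) ∧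
    (∀ (p : ℕ) [Fact p.Prime] (ι : AlgebraicClosure ℚ →+* QBarP p)
      (C : TensorCat.{0, v₁, u₁} (AlgebraicClosure ℚ)) (D₁ D₂ : TensorCat.{0, v₁, u₁} (FBarP p))
      (M₁ M₂ : TensorCat.{0, v₁, u₁} (ZBarP p)), IsGoodReductionWithLift p ι C D₁ M₁ →
        IsGoodReductionWithLift p ι C D₂ M₂ → M₁.TensorEquiv M₂ ∧ D₁.TensorEquiv D₂) := by
  refine ⟨?_, ?_, ?_⟩
  · intro O K _ _ _ v h M₁ M₂ h₁ h₂ e
    exact lift_unique h h₁ h₂ e
  · intro p _
    refine ⟨isUnitBall_padic p, fun M₁ M₂ h₁ h₂ e => ?_⟩
    have h := lift_unique (isUnitBall_padic p) h₁ h₂ e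
    exact ⟨h, h.baseChange (FBarP p)⟩
  · intro p _ ι C D₁ D₂ M₁ M₂ h₁ h₂
    obtain ⟨-, hM₁, r₁, g₁⟩ := h₁
    obtain ⟨-, hM₂, r₂, g₂⟩ := h₂
    have h : M₁.TensorEquiv M₂ := lift_unique (isUnitBall_padic p) hM₁ hM₂ (g₁.trans g₂.symm)
    exact ⟨h, (r₁.symm.trans (h.baseChange (FBarP p))).trans r₂⟩

end Pool.Agent.Results.MP_21cf63_al.LiftsUnique
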